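import Pool.Agent.PFC.StmtsB6
import Pool.Agent.Helper84_AT8.MIN

/-!
# Squad PFC, row JEX: existence of the coherent local idempotent
-/

open scoped BigOperators

noncomputable section

namespace Pool.Agent.PFC.H45

open Pool.Agent.Helper51_AWC Pool.Agent.Helper79_WRA Pool.Agent.PP Pool.Agent.PP.KF
open Pool.Agent.PP.K9 Pool.Agent.PP.K9.H97 Pool.Agent.PP.H75 Pool.Agent.PP.T3 Pool.Agent.PP.T2
open Pool.Agent.PP.T8 (Fr rs pw IdpStmt Rk1Stmt KnzStmt)
open Pool.Agent.PP.T8.H84 (rkL eq_of_rk ma_pw inv_pw br_one phi_mul claim)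

attribute [local instance] Ideal.Quotient.field

section lo

variable {F G : Type} [Field F] [Group G] [Finite G]

theorem jl {j w : G → F} (h : mulF j w = w) {n : ℕ} (hn : 0 < n) : mulF j (pw w n) = pw w n := by
  apply ma_injective
  obtain ⟨k, rfl⟩ := Nat.exists_eq_succ_of_ne_zero hn.ne'
  rw [ma_mul, ma_pw, Nat.succ_eq_add_one, pow_succ', ← mul_assoc, ← ma_mul, h]

theorem jr {j w : G → F} (h : mulF w j = w) {n : ℕ} (hn : 0 < n) : mulF (pw w n) j = pw w n := by
  apply ma_injective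
  obtain ⟨k, rfl⟩ := Nat.exists_eq_succ_of_ne_zero hn.ne'
  rw [ma_mul, ma_pw, Nat.succ_eq_add_one, pow_succ, mul_assoc, ← ma_mul, h]

theorem mulF_sub (a b c : G → F) : mulF a (b - c) = mulF a b - mulF a c := by
  have h : mulF a (b - c) + mulF a c = mulF a b := by
    rw [← H20.mulF_add, sub_add_cancel]
  rw [← h, add_sub_cancel_right]

theorem sub_mulF (a b c : G → F) : mulF (a - b) c = mulF a c - mulF b c := by
  have h : mulF (a - b) c + mulF b c = mulF a c := by
    rw [← H20.add_mulF, sub_add_cancel]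
  rw [← h, add_sub_cancel_right]

/-- The dichotomy for a minimal idempotent. -/
theorem dich {ℓ : ℕ} (hF : GoodF ℓ F) (idp : IdpStmt) {V : Subgroup G}
    (Φ : (G → F) → F) (hΦs : ∀ a b, Φ (a - b) = Φ a - Φ b)
    {j : G → F} (hj : mulF j j = j) (hji : H66.Inv V j) (hjΦ : Φ j ≠ 0)
    (hmin : ∀ j' : G → F, mulF j' j' = j' → H66.Inv V j' → Φ j' ≠ 0 → rkL j ≤ rkL j')
    {w : G → F} (hw : H66.Inv V w) (h1 : mulF j w = w) (h2 : mulF w j = w) :
    ∃ n : ℕ, 0 < n ∧ (pw w n = j ∨ pw w n = 0) := by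
  obtain ⟨n, hn, hid⟩ := idp ℓ F hF G w
  refine ⟨n, hn, ?_⟩
  have k1 := jl h1 hn
  have k2 := jr h2 hn
  have ki : H66.Inv V (pw w n) := inv_pw hw n
  generalize pw w n = j' at hid k1 k2 ki ⊢
  by_cases h0 : Φ j' = 0
  · right
    have s1 : mulF (j - j') (j - j') = j - j' := by
      rw [sub_mulF, mulF_sub, mulF_sub, hj, k1, k2, hid]
      abel
    have s2 : H66.Inv V (j - j') := by
      intro v hv x
      have e1 := hji v hv x
      have e2 := ki v hv x
      rw [Pi.sub_apply, Pi.sub_apply, e1, e2]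
    have s3 : Φ (j - j') ≠ 0 := by
      rw [hΦs, h0, sub_zero]
      exact hjΦ
    have s4 : mulF j (j - j') = j - j' := by rw [mulF_sub, hj, k1]
    have s5 : mulF (j - j') j = j - j' := by rw [sub_mulF, hj, k2]
    have s6 := eq_of_rk hj s1 s4 s5 (hmin _ s1 s2 s3)
    have s7 : j' = j - (j - j') := by abel
    rw [s7, s6, sub_self]
  · left
    exact eq_of_rk hj hid k1 k2 (hmin _ hid ki h0)

end lo

theorem jex (idp : IdpStmt) (rk1 : Rk1Stmt) (knz : KnzStmt) (dgc : DgcStmt)
    (idm : KF.IdmStmt) : JexStmt := by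
  intro ℓ _ M _ hM G _ _ e V γ hL
  classical
  have hF : GoodF ℓ (FF M) := H50.fld ℓ Fact.out M hM
  have hVC : V ≤ Subgroup.centralizer (V : Set G) := by
    intro v hv
    rw [Subgroup.mem_centralizer_iff]
    intro w hw
    exact hL.ab w hw v hv
  have hgi : IsIdem (fun t : Subgroup.centralizer (V : Set G) => γ t) := hL.gam.blk.1
  by_cases hemp : IrrE M (fun t : Subgroup.centralizer (V : Set G) => γ t) = ∅
  · refine ⟨0, H46.mulF_zero 0, fun _ _ _ => rfl, ?_, ?_, ?_⟩
    · intro W _ f _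
      rw [H66.br_zero]
      exact mulF_zero_left f
    · intro κ hκ
      rw [hemp] at hκ
      exact absurd hκ (Set.notMem_empty κ)
    · intro w _ h1 _
      refine ⟨1, Nat.one_pos, Or.inr ?_⟩
      have h0 : w = 0 := by
        rw [← h1]
        exact mulF_zero_left w
      rw [h0]
      exact mulF_zero_left _
  obtain ⟨κ, hκ⟩ := Set.nonempty_iff_ne_empty.2 hemp
  obtain ⟨c, hc⟩ := dgc ℓ M hM G e V γ hL
  obtain ⟨_, hk⟩ := knz ℓ M hM G e V γ hL c hc
  obtain ⟨⟨s, hs⟩, hkk⟩ := hk κ hκ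
  obtain ⟨Φ, hΦ⟩ : ∃ Φ : (G → FF M) → FF M, ∀ a, Φ a =
      ∑ᶠ t : Subgroup.centralizer (V : Set G), a t * rr M (κ t) := ⟨_, fun _ => rfl⟩
  have hΦb : ∀ a, Φ (br V a) = Φ a := by
    intro a
    rw [hΦ, hΦ]
    exact finsum_congr fun t => by rw [H66.br_of_mem t.2]
  have hΦγ : ∀ a, Φ (mulF (br V a) γ) = Φ (br V a) := by
    intro a
    rw [hΦ, hΦ]
    have h1 := mulF_res (Subgroup.centralizer (V : Set G)) (a := br V a) γ
      (fun x hx => H66.br_of_not_mem hx)
    have h2 := H46.mulF_comm hgi.1 (fun t : Subgroup.centralizer (V : Set G) => br V a t)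
    have h3 := phi_mul idm hgi hκ (fun t : Subgroup.centralizer (V : Set G) => br V a t)
    rw [h2, ← h1] at h3
    exact h3
  have hΦs : ∀ a b, Φ (a - b) = Φ a - Φ b := by
    intro a b
    have := Fintype.ofFinite (Subgroup.centralizer (V : Set G))
    rw [hΦ, hΦ, hΦ, finsum_eq_sum_of_fintype, finsum_eq_sum_of_fintype, finsum_eq_sum_of_fintype,
      ← Finset.sum_sub_distrib]
    exact Finset.sum_congr rfl fun t _ => by rw [Pi.sub_apply, sub_mul]
  -- the set of the idempotents is not empty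
  obtain ⟨j₀, hj₀, hj₀Φ⟩ := rk1 ℓ M hM (Subgroup.centralizer (V : Set G)) κ hκ.1 (dl (FF M) s) (by
    rw [finsum_eq_single _ s]
    · rw [dl, if_pos rfl, one_mul]
      exact hs
    · intro t ht
      rw [dl, if_neg ht, zero_mul])
  have hne : ∃ j : G → FF M, mulF j j = j ∧ H66.Inv V j ∧ Φ j ≠ 0 := by
    refine ⟨H75.ext0 (Subgroup.centralizer (V : Set G)) j₀, ?_, ?_, ?_⟩
    · have hs0 := ext0_supp (Subgroup.centralizer (V : Set G)) j₀
      have he : (fun t : Subgroup.centralizer (V : Set G) =>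
          H75.ext0 (Subgroup.centralizer (V : Set G)) j₀ t) = j₀ := funext (ext0_apply _ j₀)
      apply eq_of_res (mulF_supp _ hs0 hs0) hs0
      rw [mulF_res _ _ hs0, he, hj₀]
    · intro v hv x
      by_cases hx : x ∈ Subgroup.centralizer (V : Set G)
      · congr 1
        have h1 := Subgroup.mem_centralizer_iff.1 hx v hv
        rw [h1]
        group
      · rw [ext0_supp _ j₀ x hx, ext0_supp _ j₀]
        intro h
        apply hx
        have h2 := mul_mem (mul_mem (inv_mem (hVC hv)) h) (hVC hv)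
        have e2 : v⁻¹ * (v * x * v⁻¹) * v = x := by group
        rwa [e2] at h2
    · rw [hΦ]
      intro h
      apply hj₀Φ
      rw [← h]
      exact finsum_congr fun t => by rw [ext0_apply]
  -- a minimal one
  obtain ⟨j, ⟨hj, hji, hjΦ⟩, hmin⟩ : ∃ j : G → FF M, (mulF j j = j ∧ H66.Inv V j ∧ Φ j ≠ 0) ∧
      ∀ j' : G → FF M, mulF j' j' = j' → H66.Inv V j' → Φ j' ≠ 0 → rkL j ≤ rkL j' := by
    have h1 : (rkL '' {j : G → FF M | mulF j j = j ∧ H66.Inv V j ∧ Φ j ≠ 0}).Nonempty := by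
      obtain ⟨j, hj⟩ := hne
      exact ⟨rkL j, j, hj, rfl⟩
    obtain ⟨j, hj, hjr⟩ := Nat.sInf_mem h1
    refine ⟨j, hj, fun j' a b c => ?_⟩
    rw [hjr]
    exact Nat.sInf_le ⟨j', ⟨a, b, c⟩, rfl⟩
  have hV := hL.tp.pg
  have hcj : ∀ {w : G → FF M}, (∀ k ∈ Subgroup.centralizer (V : Set G), H75.cj k (br V w) = br V w) →
      mulF (br V j) (br V w) = mulF (br V w) (br V j) := fun {w} hw =>
    mulF_comm_of (K := Subgroup.centralizer (V : Set G)) (fun x hx => H66.br_of_not_mem hx) hw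
  refine ⟨j, hj, hji, ?_, ?_, fun w hw h1 h2 => dich hF idp Φ hΦs hj hji hjΦ hmin hw h1 h2⟩
  · -- the local blocks
    intro W hW b hb
    have hVW : V ≤ Subgroup.centralizer (W : Set G) := by
      intro v hv
      rw [Subgroup.mem_centralizer_iff]
      intro x hx
      exact hL.ab x (hW hx) v hv
    have hCW : Subgroup.centralizer (V : Set G) ≤ Subgroup.centralizer (W : Set G) := by
      intro v hv
      rw [Subgroup.mem_centralizer_iff]
      intro x hx
      exact Subgroup.mem_centralizer_iff.1 hv x (hW hx)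
    have hinv : H66.Inv V b := fun v hv => (cj_eq_iff v b).1 (hb.blk.ix.inv (hVW hv))
    have hcb : ∀ k ∈ Subgroup.centralizer (V : Set G), H75.cj k (br V b) = br V b := by
      intro k hk
      rw [cj_eq_iff]
      intro x
      by_cases hx : x ∈ Subgroup.centralizer (V : Set G)
      · rw [H66.br_of_mem hx, H66.br_of_mem (mul_mem (mul_mem hk hx) (inv_mem hk))]
        exact (cj_eq_iff k b).1 (hb.blk.ix.inv (hCW hk)) x
      · rw [H66.br_of_not_mem hx, H66.br_of_not_mem]
        intro h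
        apply hx
        have h2 := mul_mem (mul_mem (inv_mem hk) h) hk
        have e2 : k⁻¹ * (k * x * k⁻¹) * k = x := by group
        rwa [e2] at h2
    obtain ⟨n, hn, h⟩ := claim hF idp hV Φ hΦb hΦγ hj hji hjΦ hmin (w := b) hinv (hcj hcb) hb.gam
    have hWp : IsPGroup ℓ W := hV.to_le hW
    have hbW : br W b = b := by
      funext t
      by_cases ht : t ∈ Subgroup.centralizer (W : Set G)
      · exact H66.br_of_mem ht
      · rw [H66.br_of_not_mem ht, hb.blk.supp t ht]
    have h2 := br_one hF hWp (fun p hp => hji p (hW hp)) (fun p hp => hinv p (hW hp)) hj hb.blk.mul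
      (by
        rw [hbW]
        exact mulF_comm_of (K := Subgroup.centralizer (W : Set G))
          (fun x hx => H66.br_of_not_mem hx) (fun k hk => hb.blk.ix.inv hk)) hn h
    rw [hbW] at h2
    exact h2
  · intro κ' hκ'
    have h1 : ∑ᶠ t : Subgroup.centralizer (V : Set G), j t * rr M (κ' t) = Φ j := by
      rw [hΦ]
      exact finsum_congr fun t => by rw [hkk κ' hκ' t]
    rw [h1]
    exact hjΦ

end Pool.Agent.PFC.H45
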